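import Pool.Agent.H6.NB.Targets

/-!
# MP_0f8dca_lc: module BAS
-/

set_option autoImplicit false

namespace Pool.Agent.H58.NB

open Finset Pool.Agent.H6.NB

section

variable {X Yv : Type} [Fintype X] [DecidableEq X] [Fintype Yv] [DecidableEq Yv]

/-- remove the zeros of the rows in `Z` -/
def pwZ (e : X → Option Yv) (Z : Finset X) : X → Option Yv := fun x => if x ∈ Z then none else e x

omit [Fintype X] [Fintype Yv] [DecidableEq Yv] in
lemma pwZ_empty (e : X → Option Yv) : pwZ e ∅ = e := by
  funext x
  simp [pwZ]

omit [Fintype X] [DecidableEq X] [Fintype Yv] [DecidableEq Yv] in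
lemma tot_injective : Function.Injective (tot (X := X) (Yv := Yv)) := by
  intro Y Y' h
  funext x
  have := congrFun h x
  simpa [tot] using this

/-- the number of tables with exactly `r` rows without zero -/
lemma card_none (hXY : Fintype.card X ≤ Fintype.card Yv) (r : ℕ) :
    (univ.filter fun e : X → Option Yv => (univ.filter fun x => e x = none).card = r).card ≤
      Fintype.card Yv ^ Fintype.card X := by
  classical
  have hsub : (univ.filter fun e : X → Option Yv => (univ.filter fun x => e x = none).card = r) ⊆
      (powersetCard r (univ : Finset X)).biUnion fun Z =>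
        Fintype.piFinset fun x => if x ∈ Z then ({none} : Finset (Option Yv)) else
          (univ : Finset Yv).image some := by
    intro e he
    have he' := (Finset.mem_filter.mp he).2
    refine Finset.mem_biUnion.mpr ⟨univ.filter fun x => e x = none, ?_, ?_⟩
    · exact Finset.mem_powersetCard.mpr ⟨Finset.subset_univ _, he'⟩
    · refine Fintype.mem_piFinset.mpr fun x => ?_
      by_cases hx : e x = none
      · simp [hx]
      · rw [if_neg (by simp [hx])]
        obtain ⟨y, hy⟩ := Option.ne_none_iff_exists'.mp hx
        rw [hy]
        exact Finset.mem_image_of_mem _ (Finset.mem_univ _)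
  have hcard : ∀ Z ∈ powersetCard r (univ : Finset X),
      (Fintype.piFinset fun x => if x ∈ Z then ({none} : Finset (Option Yv)) else
          (univ : Finset Yv).image some).card ≤ Fintype.card Yv ^ (Fintype.card X - r) := by
    intro Z hZ
    rw [Fintype.card_piFinset]
    have h1 : ∀ x : X, (if x ∈ Z then ({none} : Finset (Option Yv)) else
          (univ : Finset Yv).image some).card = if x ∈ Z then 1 else Fintype.card Yv := by
      intro x
      split_ifs
      · rfl
      · rw [Finset.card_image_of_injective _ (Option.some_injective _), Finset.card_univ]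
    simp only [h1]
    rw [Finset.prod_ite, Finset.prod_const_one, one_mul, Finset.prod_const]
    have h2 : (univ.filter fun x => x ∉ Z).card = Fintype.card X - r := by
      have h3 : (univ.filter fun x => x ∉ Z) = Zᶜ := by
        ext x; simp
      rw [h3, Finset.card_compl, (Finset.mem_powersetCard.mp hZ).2]
    rw [h2]
  by_cases hr : r ≤ Fintype.card X
  · calc _ ≤ _ := Finset.card_le_card hsub
      _ ≤ (powersetCard r (univ : Finset X)).card * Fintype.card Yv ^ (Fintype.card X - r) :=
          Finset.card_biUnion_le_card_mul _ _ _ hcard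
      _ = (Fintype.card X).choose r * Fintype.card Yv ^ (Fintype.card X - r) := by
          rw [Finset.card_powersetCard, Finset.card_univ]
      _ ≤ Fintype.card X ^ r * Fintype.card Yv ^ (Fintype.card X - r) :=
          Nat.mul_le_mul_right _ (Nat.choose_le_pow _ _)
      _ ≤ Fintype.card Yv ^ r * Fintype.card Yv ^ (Fintype.card X - r) :=
          Nat.mul_le_mul_right _ (Nat.pow_le_pow_left hXY _)
      _ = Fintype.card Yv ^ Fintype.card X := by
          rw [← pow_add, Nat.add_sub_cancel' hr]
  · have h0 : (univ.filter fun e : X → Option Yv => (univ.filter fun x => e x = none).card = r) = ∅ := by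
      apply Finset.filter_eq_empty_iff.mpr
      intro e _ he
      have := Finset.card_filter_le (univ : Finset X) (fun x => e x = none)
      rw [he, Finset.card_univ] at this
      exact hr this
    rw [h0]
    simp

end

theorem t_bas (h1 : T_TUR) (h2 : T_CHO) (h3 : T_FIB) : T_BAS := by
  classical
  intro X Yv _ _ _ _ t r k G hcert hXY ht hk
  -- certificates
  have hex : ∀ e : X → Option Yv, ∃ A : Finset (X × Yv), A.card ≤ t ∧ (G e = true →
      ∀ Y' : X → Option Yv, (∀ p ∈ A, (Y' p.1 = some p.2 ↔ e p.1 = some p.2)) → G Y' = true) := by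
    intro e
    by_cases he : G e = true
    · obtain ⟨A, hA, hc⟩ := hcert e he
      exact ⟨A, hA, fun _ => hc⟩
    · exact ⟨∅, by simp, fun h => absurd h he⟩
  choose L hLt hLc using hex
  let P : Finset ((X → Option Yv) × Finset X) := univ.filter fun p =>
    G p.1 = false ∧ (∃ Y : X → Yv, p.1 = tot Y) ∧
      ∀ Z' ⊆ p.2, Z'.Nonempty → G (pwZ p.1 Z') = true
  have hP : ∀ e Z, (e, Z) ∈ P ↔ G e = false ∧ (∃ Y : X → Yv, e = tot Y) ∧
      ∀ Z' ⊆ Z, Z'.Nonempty → G (pwZ e Z') = true := by
    intro e Z
    simp [P]
  have hfib := h3 (X → Option Yv) X (X × Yv) P pwZ L Prod.fst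
    (fun i e => Function.update e i.1 (some i.2)) t pwZ_empty hLt (by
      intro e Z heZ hZ
      obtain ⟨hG0, hY, hsub⟩ := (hP e Z).mp heZ
      have hG1 := hsub Z (Finset.Subset.refl _) hZ
      obtain ⟨i, hi, hi1, hi2⟩ : ∃ i ∈ L (pwZ e Z), i.1 ∈ Z ∧ e i.1 = some i.2 := by
        by_contra hcon
        push Not at hcon
        have h4 := hLc (pwZ e Z) hG1 e (by
          intro p hp
          by_cases hpZ : p.1 ∈ Z
          · have h5 : pwZ e Z p.1 = none := by simp [pwZ, hpZ]
            rw [h5]
            simp [hcon p hp hpZ]
          · have h5 : pwZ e Z p.1 = e p.1 := by simp [pwZ, hpZ]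
            rw [h5])
        rw [hG0] at h4
        exact absurd h4 (by simp)
      refine ⟨i, hi, hi1, ?_, ?_⟩
      · rw [hP]
        exact ⟨hG0, hY, fun Z' hZ' => hsub Z' (hZ'.trans (Finset.erase_subset _ _))⟩
      · funext x
        by_cases hx : x = i.1
        · subst hx
          simp [pwZ, hi2]
        · simp [pwZ, hx])
  -- upper bound
  have hup : (P.filter fun p => p.2.card = r).card ≤
      t ^ r * Fintype.card Yv ^ Fintype.card X := by
    have h4 := Finset.card_le_mul_card_image_of_maps_to
      (s := P.filter fun p => p.2.card = r) (f := fun p => pwZ p.1 p.2)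
      (t := univ.filter fun e : X → Option Yv => (univ.filter fun x => e x = none).card = r)
      (by
        intro p hp
        obtain ⟨hp1, hp2⟩ := Finset.mem_filter.mp hp
        obtain ⟨-, ⟨Y, hY⟩, -⟩ := (hP p.1 p.2).mp hp1
        refine Finset.mem_filter.mpr ⟨Finset.mem_univ _, ?_⟩
        have h5 : (univ.filter fun x => pwZ p.1 p.2 x = none) = p.2 := by
          ext x
          simp only [Finset.mem_filter, Finset.mem_univ, true_and, pwZ, hY, tot]
          by_cases hx : x ∈ p.2 <;> simp [hx]
        rw [h5, hp2]) (t ^ r) (by
        intro b _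
        have h5 := hfib r b
        rw [Finset.filter_filter]
        exact h5)
    exact h4.trans (Nat.mul_le_mul_left _ (card_none hXY r))
  -- lower bound
  set bad : Finset (X → Yv) := univ.filter fun Y : X → Yv =>
    k < (univ.filter fun x => G (tot Y) = false ∧ G (sta (tot Y) x) = true).card with hbad
  have hlow : (4 * t) ^ r * bad.card ≤ (P.filter fun p => p.2.card = r).card := by
    have h4 := Finset.mul_card_image_le_card_of_maps_to
      (s := (P.filter fun p => p.2.card = r).filter fun p => p.1 ∈ bad.image tot)
      (f := Prod.fst) (t := bad.image tot) (fun p hp => (Finset.mem_filter.mp hp).2)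
      ((4 * t) ^ r) (by
        intro b hb
        obtain ⟨Y, hY, rfl⟩ := Finset.mem_image.mp hb
        have hYk := (Finset.mem_filter.mp hY).2
        set S := univ.filter fun x => G (tot Y) = false ∧ G (sta (tot Y) x) = true with hS
        obtain ⟨T, hTS, hTc, hTR⟩ := h1 X S (fun x x' => x ≠ x' ∧ (x', Y x') ∈ L (sta (tot Y) x)) t (by
          intro x _
          refine le_trans ?_ (hLt (sta (tot Y) x))
          refine Finset.card_le_card_of_injOn (fun x' => (x', Y x')) ?_ ?_
          · intro x' hx'
            exact (Finset.mem_filter.mp hx').2.2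
          · intro x' _ x'' _ h
            exact (Prod.mk.inj h).1)
        have hT5 : 5 * t * r < T.card := by
          have h5 : (2 * t + 1) * (5 * t * r) < (2 * t + 1) * T.card :=
            lt_of_le_of_lt hk (lt_of_lt_of_le hYk hTc)
          exact Nat.lt_of_mul_lt_mul_left h5
        have hch := h2 t r T.card ht hT5.le
        refine hch.trans ?_
        rw [← Finset.card_powersetCard]
        refine Finset.card_le_card_of_injOn (fun Z => (tot Y, Z)) ?_ ?_
        · intro Z hZ
          obtain ⟨hZT, hZr⟩ := Finset.mem_powersetCard.mp hZ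
          have hG0 : G (tot Y) = false := by
            have h6 : T.Nonempty := Finset.card_pos.mp (by omega)
            obtain ⟨x, hx⟩ := h6
            exact (Finset.mem_filter.mp (hTS hx)).2.1
          have hmem : (tot Y, Z) ∈ P := by
            rw [hP]
            refine ⟨hG0, ⟨Y, rfl⟩, fun Z' hZ' hne => ?_⟩
            obtain ⟨x, hx⟩ := hne
            have hxT : x ∈ T := hZT (hZ' hx)
            have hGx := (Finset.mem_filter.mp (hTS hxT)).2.2
            refine hLc (sta (tot Y) x) hGx _ fun p hp => ?_
            by_cases hpx : p.1 = x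
            · have h7 : pwZ (tot Y) Z' p.1 = none := by simp [pwZ, hpx, hx]
              have h8 : sta (tot Y) x p.1 = none := by simp [sta, hpx]
              rw [h7, h8]
            · have h8 : sta (tot Y) x p.1 = some (Y p.1) := by simp [sta, hpx, tot]
              by_cases hpZ : p.1 ∈ Z'
              · have h7 : pwZ (tot Y) Z' p.1 = none := by simp [pwZ, hpZ]
                rw [h7, h8]
                constructor
                · intro h9
                  exact absurd h9 (by simp)
                · intro h9
                  exfalso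
                  have h10 : Y p.1 = p.2 := Option.some_injective _ h9
                  refine hTR x hxT p.1 (hZT (hZ' hpZ)) (fun h => hpx h.symm) ⟨fun h => hpx h.symm, ?_⟩
                  rw [h10]
                  exact hp
              · have h7 : pwZ (tot Y) Z' p.1 = some (Y p.1) := by simp [pwZ, hpZ, tot]
                rw [h7, h8]
          refine Finset.mem_coe.mpr (Finset.mem_filter.mpr ⟨Finset.mem_filter.mpr
            ⟨Finset.mem_filter.mpr ⟨hmem, hZr⟩, Finset.mem_image_of_mem _ hY⟩, rfl⟩)
        · intro Z _ Z' _ h
          exact (Prod.mk.inj h).2)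
    rw [Finset.card_image_of_injective _ tot_injective] at h4
    exact h4.trans (Finset.card_filter_le _ _)
  have htot := hlow.trans hup
  have htr : 0 < t ^ r := Nat.pow_pos ht
  have h9 : t ^ r * (bad.card * 4 ^ r) ≤ t ^ r * Fintype.card Yv ^ Fintype.card X := by
    calc t ^ r * (bad.card * 4 ^ r) = (4 * t) ^ r * bad.card := by rw [mul_pow]; ring
      _ ≤ _ := htot
  exact Nat.le_of_mul_le_mul_left h9 htr

end Pool.Agent.H58.NB
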