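import Pool.Agent.H58.NB.STJ

/-!
# MP_0f8dca_lc: module IDE
-/

set_option autoImplicit false

namespace Pool.Agent.H58.NB

open Finset Pool.Agent.H6.NB

section

variable {X Yv Ω : Type} [Fintype X] [DecidableEq X] {acc : Ω → Fn X Yv Ω} {lev : Ω → ℕ} {h : ℕ}
  {K : ℕ → ℕ}

/-- an untypical instance of minimal level -/
lemma exists_min_bad (Y : X → Option Yv) (e : Ω → Bool) (n : ℕ) :
    ∀ s, lev s = n → K (lev s) < (dset acc h Y e s).card →
      ∃ s', K (lev s') < (dset acc h Y e s').card ∧ Typ acc lev h K (lev s') Y e := by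
  induction n using Nat.strong_induction_on with
  | _ n ih =>
    intro s hs hK
    by_cases hT : Typ acc lev h K (lev s) Y e
    · exact ⟨s, hK, hT⟩
    · unfold Typ at hT
      push Not at hT
      obtain ⟨s', h1, h2⟩ := hT
      exact ih (lev s') (by omega) s' rfl h2

end

lemma par_K_mono' {t h N : ℕ} {r k K : ℕ → ℕ} (hP : Par t h N r k K) : Monotone K :=
  monotone_nat_of_le_succ (par_K_mono hP)

lemma dset_large (h2 : T_ONE) (h3 : T_EXB)
    (X Yv Ω : Type) [Fintype X] [DecidableEq X] [DecidableEq Yv]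
    (acc : Ω → Fn X Yv Ω) (lev : Ω → ℕ) (t h N : ℕ) (r k K : ℕ → ℕ)
    (hL : Lvl acc lev t h) (hP : Par t h N r k K) (Y : X → Option Yv) (e : Ω → Bool)
    (s : Ω) (hK : K (lev s) < (dset acc h Y e s).card) (hT : Typ acc lev h K (lev s) Y e) :
    k (lev s) < (upx acc h (acc s) Y e).card := by
  classical
  have hsub : dset acc h Y e s ⊆ upx acc h (acc s) Y e ∪
      univ.filter fun x => acc s Y e = true ∧ acc s (sta Y x) (ex acc h Y e x) = false := by
    intro x hx
    have h4 := (Finset.mem_filter.mp hx).2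
    rw [(h3 X Yv Ω acc lev t h hL).2.2.1 Y e x s] at h4
    rw [Finset.mem_union]
    unfold upx
    rw [Finset.mem_filter, Finset.mem_filter]
    revert h4
    cases acc s Y e <;> cases acc s (sta Y x) (ex acc h Y e x) <;> simp
  have hone : ∀ M, 1 ≤ M → (∀ i < lev s, K i ≤ M) → (dset acc h Y e s).card ≤
      (upx acc h (acc s) Y e).card + t * M := by
    intro M hM hM2
    have h5 := h2 X Yv Ω acc lev t h (lev s) M K (acc s) Y e hL (hL.cert s) hT hM hM2
    calc _ ≤ _ := Finset.card_le_card hsub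
      _ ≤ _ := Finset.card_union_le _ _
      _ ≤ _ := Nat.add_le_add_left h5 _
  rcases Nat.eq_zero_or_pos (lev s) with h0 | h0
  · have h6 := hone 1 le_rfl (fun i hi => by omega)
    have h7 := hP.K0
    rw [h0] at hK ⊢
    omega
  · obtain ⟨i, hi⟩ : ∃ i, lev s = i + 1 := ⟨lev s - 1, by omega⟩
    have h6 := hone (K i) (par_K_pos hP i) (fun i' hi' => par_K_mono' hP (by omega))
    have h7 := hP.KS i
    rw [hi] at hK ⊢
    omega

theorem t_ide (h1 : T_STJ) (h2 : T_ONE) (h3 : T_EXB) : T_IDE := by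
  classical
  intro X Yv Ω _ _ _ _ _ _ acc lev t h R r k K hL hP hXY hR
  set T : ℕ := Fintype.card Yv ^ Fintype.card X * 2 ^ Fintype.card Ω with hT
  set B : Ω → Finset ((X → Yv) × (Ω → Bool)) := fun s =>
    univ.filter fun p : (X → Yv) × (Ω → Bool) =>
      Typ acc lev h K (lev s) (tot p.1) p.2 ∧
        k (lev s) < (upx acc h (acc s) (tot p.1) p.2).card with hB
  have hBs : ∀ s, (B s).card * 4 ^ R ≤ 2 * T := by
    intro s
    have h4 := h1 X Yv Ω acc lev t h r k K hL hP hXY (lev s) (hL.lt s).le (acc s) (hL.cert s)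
    have h5 : (B s).card * 4 ^ r (lev s) ≤ 2 * T :=
      le_of_eq_of_le (congrArg (fun z => z * 4 ^ r (lev s))
        (card_filter_inst _ _ _ _ _ fun _ _ => Iff.rfl)) h4
    refine le_trans ?_ h5
    exact Nat.mul_le_mul_left _ (Nat.pow_le_pow_right (by norm_num) (hR _ (hL.lt s)))
  have hcov : (univ.filter fun p : (X → Yv) × (Ω → Bool) =>
      ¬ Typ acc lev h K h (tot p.1) p.2) ⊆ (univ : Finset Ω).biUnion B := by
    intro p hp
    have h6 := (Finset.mem_filter.mp hp).2
    unfold Typ at h6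
    push Not at h6
    obtain ⟨s, hs, hs2⟩ := h6
    obtain ⟨s', hs', hs3⟩ := exists_min_bad (tot p.1) p.2 (lev s) s rfl hs2
    rw [Finset.mem_biUnion]
    refine ⟨s', Finset.mem_univ _, Finset.mem_filter.mpr ⟨Finset.mem_univ _, hs3, ?_⟩⟩
    exact dset_large h2 h3 X Yv Ω acc lev t h _ r k K hL hP (tot p.1) p.2 s' hs' hs3
  calc _ = (univ.filter fun p : (X → Yv) × (Ω → Bool) =>
      ¬ Typ acc lev h K h (tot p.1) p.2).card * 4 ^ R :=
        congrArg (fun z => z * 4 ^ R) (card_filter_inst _ _ _ _ _ fun _ _ => Iff.rfl)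
    _ ≤ (∑ s, (B s).card) * 4 ^ R :=
        Nat.mul_le_mul_right _ ((Finset.card_le_card hcov).trans Finset.card_biUnion_le)
    _ = ∑ s, (B s).card * 4 ^ R := Finset.sum_mul _ _ _
    _ ≤ ∑ _s : Ω, 2 * T := Finset.sum_le_sum fun s _ => hBs s
    _ = Fintype.card Ω * (2 * T) := by rw [Finset.sum_const, Finset.card_univ, smul_eq_mul]

end Pool.Agent.H58.NB
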