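import Pool.Agent.H6.NB.Targets

/-!
# MP_0f8dca_lc: module ONE
-/

set_option autoImplicit false

namespace Pool.Agent.H58.NB

open Finset Pool.Agent.H6.NB

theorem t_one (h1 : T_EXB) : T_ONE := by
  classical
  intro X Yv Ω _ _ _ acc lev t h j M K G Y e hL hG hT hM hK
  obtain ⟨-, -, -, -⟩ := h1 X Yv Ω acc lev t h hL
  by_cases hGe : G Y e = true
  swap
  · have : (univ.filter fun x => G Y e = true ∧ G (sta Y x) (ex acc h Y e x) = false) = ∅ := by
      apply Finset.filter_eq_empty_iff.mpr
      intro x _ hx
      exact hGe hx.1
    rw [this]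
    simp
  obtain ⟨A, B, hAB, hB, hc⟩ := hG Y e hGe
  have hsub : (univ.filter fun x => G Y e = true ∧ G (sta Y x) (ex acc h Y e x) = false) ⊆
      A.image Prod.fst ∪ B.biUnion fun s => dset acc h Y e s := by
    intro x hx
    obtain ⟨-, -, hx⟩ := Finset.mem_filter.mp hx
    by_contra hcon
    rw [Finset.mem_union, not_or] at hcon
    have h2 : G (sta Y x) (ex acc h Y e x) = true := by
      apply hc
      · intro p hp
        have hne : p.1 ≠ x := by
          rintro rfl
          exact hcon.1 (Finset.mem_image_of_mem _ hp)
        simp only [sta, Function.update_of_ne hne]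
      · intro s hs
        by_contra hne
        apply hcon.2
        refine Finset.mem_biUnion.mpr ⟨s, hs, ?_⟩
        refine Finset.mem_filter.mpr ⟨Finset.mem_univ _, ?_⟩
        unfold dlt
        revert hne
        cases ex acc h Y e x s <;> cases e s <;> simp
    rw [h2] at hx
    exact absurd hx (by simp)
  calc _ ≤ (A.image Prod.fst ∪ B.biUnion fun s => dset acc h Y e s).card := Finset.card_le_card hsub
    _ ≤ (A.image Prod.fst).card + (B.biUnion fun s => dset acc h Y e s).card :=
        Finset.card_union_le _ _
    _ ≤ A.card + B.card * M := by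
        refine Nat.add_le_add Finset.card_image_le ?_
        refine Finset.card_biUnion_le_card_mul _ _ _ fun s hs => ?_
        exact (hT s (hB s hs)).trans (hK _ (hB s hs))
    _ ≤ A.card * M + B.card * M := by
        refine Nat.add_le_add_right ?_ _
        exact Nat.le_mul_of_pos_right _ hM
    _ = (A.card + B.card) * M := (Nat.add_mul _ _ _).symm
    _ ≤ t * M := Nat.mul_le_mul_right _ hAB

end Pool.Agent.H58.NB
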