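import Pool.Agent.H6.NB.Targets

/-!
# MP_0f8dca_lc: module STC
-/

set_option autoImplicit false

namespace Pool.Agent.H58.NB

open Finset Pool.Agent.H6.NB

/-- the cardinality of a filter does not depend on the decidability instances -/
lemma card_filter_inst {α : Type*} (s : Finset α) (p q : α → Prop) (i1 : DecidablePred p)
    (i2 : DecidablePred q) (h : ∀ x ∈ s, (p x ↔ q x)) :
    (@Finset.filter α p i1 s).card = (@Finset.filter α q i2 s).card := by
  refine congrArg Finset.card ?_
  ext x
  rw [Finset.mem_filter, Finset.mem_filter]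
  exact and_congr_right fun hx => h x hx

section

variable {X Yv Ω : Type} [Fintype X] [DecidableEq X] {acc : Ω → Fn X Yv Ω} {lev : Ω → ℕ} {t h : ℕ}

lemma dset_congr (h2 : T_EXB) (hL : Lvl acc lev t h) (Y : X → Option Yv) {e e' : Ω → Bool} (s : Ω)
    (he : ∀ s', lev s' < lev s → e s' = e' s') : dset acc h Y e s = dset acc h Y e' s := by
  unfold dset
  refine Finset.filter_congr fun x _ => ?_
  rw [(h2 X Yv Ω acc lev t h hL).2.2.2 Y e e' x s he]

lemma typ_congr (h2 : T_EXB) (hL : Lvl acc lev t h) {K : ℕ → ℕ} {j : ℕ} (Y : X → Option Yv)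
    {e e' : Ω → Bool} (he : ∀ s', lev s' < j → e s' = e' s') :
    Typ acc lev h K j Y e ↔ Typ acc lev h K j Y e' := by
  unfold Typ
  refine forall_congr' fun s => ?_
  refine imp_congr_right fun hs => ?_
  rw [dset_congr h2 hL Y s fun s' hs' => he s' (hs'.trans hs)]

omit [Fintype X] in
lemma ex_congr (h2 : T_EXB) (hL : Lvl acc lev t h) {j : ℕ} (Y : X → Option Yv)
    {e e' : Ω → Bool} (he : ∀ s', lev s' < j → e s' = e' s') (x : X) (s : Ω) (hs : lev s < j) :
    ex acc h Y e x s = ex acc h Y e' x s := by
  have h3 := (h2 X Yv Ω acc lev t h hL).2.2.2 Y e e' x s fun s' hs' => he s' (hs'.trans hs)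
  unfold dlt at h3
  rw [he s hs] at h3
  revert h3
  cases e' s <;> cases ex acc h Y e x s <;> cases ex acc h Y e' x s <;> simp

lemma upx_congr (h2 : T_EXB) (h3 : T_LOC) (hL : Lvl acc lev t h) {j : ℕ} (G : Fn X Yv Ω)
    (hG : Cert lev t j G) (Y : X → Option Yv)
    {e e' : Ω → Bool} (he : ∀ s', lev s' < j → e s' = e' s') :
    upx acc h G Y e = upx acc h G Y e' := by
  unfold upx
  refine Finset.filter_congr fun x _ => ?_
  rw [h3 X Yv Ω lev t j G hG Y e e' he,
    h3 X Yv Ω lev t j G hG (sta Y x) (ex acc h Y e x) (ex acc h Y e' x)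
      fun s hs => ex_congr h2 hL Y he x s hs]

/-- the answers of level `j` are fixed -/
def fixj (lev : Ω → ℕ) (j : ℕ) (G : Fn X Yv Ω) (a : Ω → Bool) : Fn X Yv Ω :=
  fun Y e => G Y (fun s => if lev s = j then a s else e s)

omit [Fintype X] [DecidableEq X] in
lemma cert_fixj {j : ℕ} (G : Fn X Yv Ω) (hG : Cert lev t (j + 1) G) (a : Ω → Bool) :
    Cert lev t j (fixj lev j G a) := by
  classical
  intro Y e hGe
  obtain ⟨A, B, hAB, hB, hc⟩ := hG Y _ hGe
  refine ⟨A, B.filter fun s => lev s < j, ?_, ?_, ?_⟩
  · exact (Nat.add_le_add_left (Finset.card_filter_le _ _) _).trans hAB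
  · intro s hs
    exact (Finset.mem_filter.mp hs).2
  · intro Y' e' hA hB'
    apply hc Y' _ hA
    intro s hs
    by_cases hj : lev s = j
    · rw [if_pos hj, if_pos hj]
    · rw [if_neg hj, if_neg hj]
      have h4 := hB s hs
      exact hB' s (Finset.mem_filter.mpr ⟨hs, by omega⟩)

end

theorem t_stc (h1 : T_SWA) (h2 : T_EXB) (h3 : T_LOC) : T_STC := by
  classical
  intro X Yv Ω _ _ _ _ _ acc lev t h j k R B K hL hj hyp G hG
  have hswa := h1 (X → Yv) Ω (fun s => lev s = j)
    (fun Y e a => Typ acc lev h K j (tot Y) e ∧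
      k < (upx acc h (fixj lev j G a) (tot Y) e).card) R B ?_ ?_
  · refine le_of_eq_of_le (congrArg (fun z => z * R) (card_filter_inst _ _ _ _ _ ?_)) hswa
    · intro p _
      have h4 : uph acc lev h G j (tot p.1) p.2 = upx acc h (fixj lev j G p.2) (tot p.1) p.2 := by
        unfold uph upx
        refine Finset.filter_congr fun x _ => ?_
        have h5 : fixj lev j G p.2 (tot p.1) p.2 = G (tot p.1) p.2 := by
          unfold fixj
          congr 1
          funext s
          simp
        have h6 : fixj lev j G p.2 (sta (tot p.1) x) (ex acc h (tot p.1) p.2 x) =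
            hx acc lev h G j (tot p.1) p.2 x := by
          unfold fixj hx
          apply h3 X Yv Ω lev t (j + 1) G hG
          intro s hs
          by_cases h7 : lev s = j
          · simp [h7]
          · have h8 : lev s < j := by omega
            simp [h7, h8]
        rw [h5, h6]
      rw [h4]
  · intro Y e e' a a' he ha
    have hfix : fixj (X := X) (Yv := Yv) lev j G a = fixj lev j G a' := by
      funext Y' e''
      unfold fixj
      congr 1
      funext s
      by_cases h7 : lev s = j
      · simp [h7, ha s h7]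
      · simp [h7]
    have he' : ∀ s', lev s' < j → e s' = e' s' := fun s' hs' => he s' (by omega)
    rw [hfix, typ_congr h2 hL (tot Y) he',
      upx_congr h2 h3 hL (fixj lev j G a') (cert_fixj G hG a') (tot Y) he']
  · intro a
    exact le_of_eq_of_le (congrArg (fun z => z * R) (card_filter_inst _ _ _ _ _ fun _ _ => Iff.rfl))
      (hyp (fixj lev j G a) (cert_fixj G hG a))

end Pool.Agent.H58.NB
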