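import Pool.Agent.H58.NB.STC

/-!
# MP_0f8dca_lc: module STJ
-/

set_option autoImplicit false

namespace Pool.Agent.H58.NB

open Finset Pool.Agent.H6.NB

/-- counting pairs fiberwise -/
lemma card_pairs {A B : Type*} [Fintype A] [Fintype B] (p : A → B → Prop)
    [∀ a, DecidablePred (p a)] [DecidablePred fun x : A × B => p x.1 x.2] :
    (univ.filter fun x : A × B => p x.1 x.2).card = ∑ a, (univ.filter (p a)).card := by
  classical
  rw [Finset.card_filter, Fintype.sum_prod_type]
  refine Finset.sum_congr rfl fun a _ => ?_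
  rw [Finset.card_filter]
  refine Finset.sum_congr rfl fun b _ => ?_
  by_cases hp : p a b
  · rw [if_pos hp, if_pos hp]
  · rw [if_neg hp, if_neg hp]

/-- the number of small sets -/
lemma card_small (X : Type) [Fintype X] [DecidableEq X] (r : ℕ) :
    (univ.filter fun Z : Finset X => Z.card ≤ r).card ≤ (Fintype.card X + 1) ^ r := by
  classical
  have h1 : (univ.filter fun Z : Finset X => Z.card ≤ r) ⊆
      (univ : Finset (Fin r → Option X)).image
        (fun f => univ.filter fun x => ∃ i, f i = some x) := by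
    intro Z hZ
    have hZr : Z.card ≤ r := (Finset.mem_filter.mp hZ).2
    rw [Finset.mem_image]
    refine ⟨fun i => Z.toList[(i : ℕ)]?, Finset.mem_univ _, ?_⟩
    ext x
    rw [Finset.mem_filter]
    constructor
    · rintro ⟨_, i, hi⟩
      exact Finset.mem_toList.mp (List.mem_of_getElem? hi)
    · intro hx
      refine ⟨Finset.mem_univ _, ?_⟩
      obtain ⟨i, hi⟩ := List.mem_iff_getElem?.mp (Finset.mem_toList.mpr hx)
      have h3 : i < Z.toList.length := by
        by_contra h4
        rw [List.getElem?_eq_none (by omega)] at hi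
        exact absurd hi.symm (Option.some_ne_none x)
      rw [Finset.length_toList] at h3
      exact ⟨⟨i, by omega⟩, hi⟩
  calc (univ.filter fun Z : Finset X => Z.card ≤ r).card
      ≤ ((univ : Finset (Fin r → Option X)).image
        (fun f => univ.filter fun x => ∃ i, f i = some x)).card := Finset.card_le_card h1
    _ ≤ (univ : Finset (Fin r → Option X)).card := Finset.card_image_le
    _ = (Fintype.card X + 1) ^ r := by
        rw [Finset.card_univ, Fintype.card_fun, Fintype.card_option, Fintype.card_fin]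

lemma par_K_pos {t h N : ℕ} {r k K : ℕ → ℕ} (hP : Par t h N r k K) (i : ℕ) : 1 ≤ K i := by
  induction i with
  | zero => have := hP.K0; have := hP.t_pos; omega
  | succ i ih =>
    have h1 := hP.KS i
    have h2 : 1 ≤ t * K i := Nat.mul_pos hP.t_pos ih
    omega

lemma par_K_mono {t h N : ℕ} {r k K : ℕ → ℕ} (hP : Par t h N r k K) (i : ℕ) : K i ≤ K (i + 1) := by
  have h1 := hP.KS i
  have h2 : 1 * K i ≤ t * K i := Nat.mul_le_mul_right _ hP.t_pos
  omega

/-- the step of the induction -/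
lemma stj_step (h2 : T_STA) (h3 : T_STB) (h4 : T_STC)
    (X Yv Ω : Type) [Fintype X] [DecidableEq X] [Fintype Yv] [DecidableEq Yv]
    [Fintype Ω] [DecidableEq Ω] (acc : Ω → Fn X Yv Ω) (lev : Ω → ℕ) (t h : ℕ) (r k K : ℕ → ℕ)
    (hL : Lvl acc lev t h) (hP : Par t h (Fintype.card X) r k K) (j : ℕ) (hj : j + 1 ≤ h)
    (i0 : ∀ G : Fn X Yv Ω, DecidablePred fun p : (X → Yv) × (Ω → Bool) =>
      Typ acc lev h K j (tot p.1) p.2 ∧ k j < (upx acc h G (tot p.1) p.2).card)
    (ih : ∀ G : Fn X Yv Ω, Cert lev t j G → (univ.filter fun p : (X → Yv) × (Ω → Bool) =>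
      Typ acc lev h K j (tot p.1) p.2 ∧ k j < (upx acc h G (tot p.1) p.2).card).card * 4 ^ r j ≤
      2 * (Fintype.card Yv ^ Fintype.card X * 2 ^ Fintype.card Ω))
    (G : Fn X Yv Ω) (hG : Cert lev t (j + 1) G)
    [DecidablePred fun p : (X → Yv) × (Ω → Bool) =>
      Typ acc lev h K (j + 1) (tot p.1) p.2 ∧ k (j + 1) < (upx acc h G (tot p.1) p.2).card] :
    (univ.filter fun p : (X → Yv) × (Ω → Bool) =>
      Typ acc lev h K (j + 1) (tot p.1) p.2 ∧
        k (j + 1) < (upx acc h G (tot p.1) p.2).card).card * 4 ^ r (j + 1) ≤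
      2 * (Fintype.card Yv ^ Fintype.card X * 2 ^ Fintype.card Ω) := by
  classical
  set T : ℕ := Fintype.card Yv ^ Fintype.card X * 2 ^ Fintype.card Ω with hT
  set q1 : (X → Yv) → (Ω → Bool) → Prop := fun Y e =>
    Typ acc lev h K (j + 1) (tot Y) e ∧ k (j + 1) < (upx acc h G (tot Y) e).card ∧
      ∀ Z : Finset X, Z.card ≤ r (j + 1) →
        (uph acc lev h G j (tot Y) (fl acc lev h (tot Y) j e Z)).card ≤ k j with hq1
  set q2 : Finset X → (X → Yv) → (Ω → Bool) → Prop := fun Z Y e =>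
    Typ acc lev h K j (tot Y) e ∧
      k j < (uph acc lev h G j (tot Y) (fl acc lev h (tot Y) j e Z)).card with hq2
  set q3 : (X → Yv) → (Ω → Bool) → Prop := fun Y e =>
    Typ acc lev h K j (tot Y) e ∧ k j < (uph acc lev h G j (tot Y) e).card with hq3
  set Zs : Finset (Finset X) := univ.filter fun Z : Finset X => Z.card ≤ r (j + 1) with hZs
  -- part one
  have hI : (univ.filter fun p : (X → Yv) × (Ω → Bool) => q1 p.1 p.2).card * 4 ^ r (j + 1) ≤ T := by
    rw [card_pairs q1, Finset.sum_mul]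
    calc ∑ Y, (univ.filter (q1 Y)).card * 4 ^ r (j + 1)
        ≤ ∑ _Y : X → Yv, 2 ^ Fintype.card Ω := by
          refine Finset.sum_le_sum fun Y _ => ?_
          exact h2 X Yv Ω acc lev t h j (r (j + 1)) (k j) (k (j + 1)) K G (tot Y) hL hG hP.t_pos
            (par_K_pos hP j) (hP.kS j) (q1 Y) (fun e he => he)
      _ = T := by
          rw [Finset.sum_const, Finset.card_univ, Fintype.card_fun, smul_eq_mul]
  -- part two
  have hII : ∀ Z : Finset X,
      (univ.filter fun p : (X → Yv) × (Ω → Bool) => q2 Z p.1 p.2).card * 4 ^ r j ≤ 2 * T := by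
    intro Z
    have h5 : (univ.filter fun p : (X → Yv) × (Ω → Bool) => q2 Z p.1 p.2).card =
        (univ.filter fun p : (X → Yv) × (Ω → Bool) => q3 p.1 p.2).card := by
      rw [card_pairs (q2 Z), card_pairs q3]
      refine Finset.sum_congr rfl fun Y _ => ?_
      have h6 := h3 X Yv Ω acc lev t h j (k j) K G (tot Y) Z hL
      have h7 : (univ.filter (q2 Z Y)).card = _ :=
        (card_filter_inst univ (q2 Z Y) _ _ _ fun _ _ => Iff.rfl).trans h6
      exact h7.trans (card_filter_inst univ _ (q3 Y) _ _ fun _ _ => Iff.rfl)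
    rw [h5]
    have h8 := h4 X Yv Ω acc lev t h j (k j) (4 ^ r j) (2 * T) K hL (by omega) ?_ G hG
    · exact le_of_eq_of_le (congrArg (fun z => z * 4 ^ r j)
        (card_filter_inst _ _ _ _ _ fun _ _ => Iff.rfl)) h8
    · intro G' hG'
      exact le_of_eq_of_le (congrArg (fun z => z * 4 ^ r j)
        (card_filter_inst _ _ _ _ _ fun _ _ => Iff.rfl)) (ih G' hG')
  -- covering
  have hcov : (univ.filter fun p : (X → Yv) × (Ω → Bool) =>
      Typ acc lev h K (j + 1) (tot p.1) p.2 ∧
        k (j + 1) < (upx acc h G (tot p.1) p.2).card).card ≤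
      (univ.filter fun p : (X → Yv) × (Ω → Bool) => q1 p.1 p.2).card +
        ∑ Z ∈ Zs, (univ.filter fun p : (X → Yv) × (Ω → Bool) => q2 Z p.1 p.2).card := by
    have h9 : (univ.filter fun p : (X → Yv) × (Ω → Bool) =>
        Typ acc lev h K (j + 1) (tot p.1) p.2 ∧
        k (j + 1) < (upx acc h G (tot p.1) p.2).card) ⊆
        (univ.filter fun p : (X → Yv) × (Ω → Bool) => q1 p.1 p.2) ∪
          Zs.biUnion fun Z => univ.filter fun p : (X → Yv) × (Ω → Bool) => q2 Z p.1 p.2 := by
      intro p hp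
      obtain ⟨hp1, hp2⟩ := (Finset.mem_filter.mp hp).2
      rw [Finset.mem_union]
      by_cases hc : ∀ Z : Finset X, Z.card ≤ r (j + 1) →
        (uph acc lev h G j (tot p.1) (fl acc lev h (tot p.1) j p.2 Z)).card ≤ k j
      · left
        exact Finset.mem_filter.mpr ⟨Finset.mem_univ _, hp1, hp2, hc⟩
      · right
        push Not at hc
        obtain ⟨Z, hZ, hc2⟩ := hc
        rw [Finset.mem_biUnion]
        refine ⟨Z, Finset.mem_filter.mpr ⟨Finset.mem_univ _, hZ⟩, ?_⟩
        refine Finset.mem_filter.mpr ⟨Finset.mem_univ _, ?_, hc2⟩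
        intro s hs
        exact hp1 s (by omega)
    calc _ ≤ _ := Finset.card_le_card h9
      _ ≤ _ := Finset.card_union_le _ _
      _ ≤ _ := Nat.add_le_add_left Finset.card_biUnion_le _
  have hcZ : Zs.card ≤ (Fintype.card X + 1) ^ r (j + 1) := card_small X (r (j + 1))
  have hS : (∑ Z ∈ Zs, (univ.filter fun p : (X → Yv) × (Ω → Bool) => q2 Z p.1 p.2).card) *
      4 ^ r (j + 1) ≤ T := by
    set S := ∑ Z ∈ Zs, (univ.filter fun p : (X → Yv) × (Ω → Bool) => q2 Z p.1 p.2).card with hSd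
    have h10 : S * 4 ^ r j ≤ (Fintype.card X + 1) ^ r (j + 1) * (2 * T) := by
      rw [hSd, Finset.sum_mul]
      calc ∑ Z ∈ Zs, (univ.filter fun p : (X → Yv) × (Ω → Bool) => q2 Z p.1 p.2).card * 4 ^ r j
          ≤ ∑ _Z ∈ Zs, 2 * T := Finset.sum_le_sum fun Z _ => hII Z
        _ = Zs.card * (2 * T) := by rw [Finset.sum_const, smul_eq_mul]
        _ ≤ _ := Nat.mul_le_mul_right _ hcZ
    have h11 := hP.rS j (by omega)
    have h12 : (0 : ℕ) < 4 ^ r j := by positivity
    refine Nat.le_of_mul_le_mul_left ?_ h12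
    calc 4 ^ r j * (S * 4 ^ r (j + 1)) = (S * 4 ^ r j) * 4 ^ r (j + 1) := by ring
      _ ≤ ((Fintype.card X + 1) ^ r (j + 1) * (2 * T)) * 4 ^ r (j + 1) :=
          Nat.mul_le_mul_right _ h10
      _ = ((Fintype.card X + 1) ^ r (j + 1) * 2 * 4 ^ r (j + 1)) * T := by ring
      _ ≤ 4 ^ r j * T := Nat.mul_le_mul_right _ h11
  calc _ ≤ ((univ.filter fun p : (X → Yv) × (Ω → Bool) => q1 p.1 p.2).card +
        ∑ Z ∈ Zs, (univ.filter fun p : (X → Yv) × (Ω → Bool) => q2 Z p.1 p.2).card) *
          4 ^ r (j + 1) := Nat.mul_le_mul_right _ hcov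
    _ = _ + _ := Nat.add_mul _ _ _
    _ ≤ T + T := Nat.add_le_add hI hS
    _ = 2 * T := by ring

/-- the start of the induction -/
lemma stj_zero (h1 : T_BAS) (h6 : T_LOC)
    (X Yv Ω : Type) [Fintype X] [DecidableEq X] [Fintype Yv] [DecidableEq Yv]
    [Fintype Ω] [DecidableEq Ω] (acc : Ω → Fn X Yv Ω) (lev : Ω → ℕ) (t h : ℕ) (r k K : ℕ → ℕ)
    (hP : Par t h (Fintype.card X) r k K)
    (hXY : Fintype.card X ≤ Fintype.card Yv)
    (G : Fn X Yv Ω) (hG : Cert lev t 0 G)
    [DecidablePred fun p : (X → Yv) × (Ω → Bool) =>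
      Typ acc lev h K 0 (tot p.1) p.2 ∧ k 0 < (upx acc h G (tot p.1) p.2).card] :
    (univ.filter fun p : (X → Yv) × (Ω → Bool) =>
      Typ acc lev h K 0 (tot p.1) p.2 ∧
        k 0 < (upx acc h G (tot p.1) p.2).card).card * 4 ^ r 0 ≤
      2 * (Fintype.card Yv ^ Fintype.card X * 2 ^ Fintype.card Ω) := by
  classical
  set G0 : (X → Option Yv) → Bool := fun Y => G Y (fun _ => false) with hG0
  have hGG : ∀ Y e, G Y e = G0 Y := fun Y e =>
    h6 X Yv Ω lev t 0 G hG Y e (fun _ => false) fun s hs => absurd hs (Nat.not_lt_zero _)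
  have hup : ∀ Y e, upx acc h G Y e =
      univ.filter fun x => G0 Y = false ∧ G0 (sta Y x) = true := by
    intro Y e
    unfold upx
    refine Finset.filter_congr fun x _ => ?_
    rw [hGG, hGG]
  have hB := h1 X Yv t (r 0) (k 0) G0 ?_ hXY hP.t_pos hP.k0
  · have hc : (univ.filter fun p : (X → Yv) × (Ω → Bool) =>
        Typ acc lev h K 0 (tot p.1) p.2 ∧
        k 0 < (upx acc h G (tot p.1) p.2).card).card =
        (univ.filter fun Y : X → Yv => k 0 <
          (univ.filter fun x => G0 (tot Y) = false ∧ G0 (sta (tot Y) x) = true).card).card *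
          2 ^ Fintype.card Ω := by
      have h9 : (univ.filter fun p : (X → Yv) × (Ω → Bool) =>
        Typ acc lev h K 0 (tot p.1) p.2 ∧
        k 0 < (upx acc h G (tot p.1) p.2).card) =
        (univ.filter fun Y : X → Yv => k 0 <
          (univ.filter fun x => G0 (tot Y) = false ∧ G0 (sta (tot Y) x) = true).card) ×ˢ
          (univ : Finset (Ω → Bool)) := by
        ext p
        rw [Finset.mem_filter, Finset.mem_product, Finset.mem_filter, hup]
        constructor
        · rintro ⟨_, _, h10⟩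
          exact ⟨⟨Finset.mem_univ _, h10⟩, Finset.mem_univ _⟩
        · rintro ⟨⟨_, h10⟩, _⟩
          exact ⟨Finset.mem_univ _, fun s hs => absurd hs (Nat.not_lt_zero _), h10⟩
      rw [h9, Finset.card_product]
      congr 1
      rw [Finset.card_univ, Fintype.card_fun, Fintype.card_bool]
    rw [hc]
    calc _ = ((univ.filter fun Y : X → Yv => k 0 <
          (univ.filter fun x => G0 (tot Y) = false ∧ G0 (sta (tot Y) x) = true).card).card *
          4 ^ r 0) * 2 ^ Fintype.card Ω := by ring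
      _ ≤ Fintype.card Yv ^ Fintype.card X * 2 ^ Fintype.card Ω := Nat.mul_le_mul_right _ hB
      _ ≤ 2 * (Fintype.card Yv ^ Fintype.card X * 2 ^ Fintype.card Ω) :=
          Nat.le_mul_of_pos_left _ (by norm_num)
  · intro Y hY
    obtain ⟨A, B, hAB, _, hc⟩ := hG Y (fun _ => false) hY
    refine ⟨A, by omega, fun Y' hY' => ?_⟩
    exact hc Y' (fun _ => false) hY' fun s _ => rfl

theorem t_stj (h1 : T_BAS) (h2 : T_STA) (h3 : T_STB) (h4 : T_STC) (_h5 : T_EXB) (h6 : T_LOC) :
    T_STJ := by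
  classical
  intro X Yv Ω _ _ _ _ _ _ acc lev t h r k K hL hP hXY j
  induction j with
  | zero =>
    intro _ G hG
    exact stj_zero h1 h6 X Yv Ω acc lev t h r k K hP hXY G hG
  | succ j ih =>
    intro hj G hG
    exact stj_step h2 h3 h4 X Yv Ω acc lev t h r k K hL hP j hj _ (ih (by omega)) G hG

end Pool.Agent.H58.NB
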